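import Pool.Agent.Y338.EG.Mix

/-!
# The derivative cocycle of the geodesic flow
-/

set_option autoImplicit false

open Set Filter Topology MeasureTheory
open scoped ContDiff

noncomputable section

namespace Pool.Agent.Y338.EG

open Pool.Agent.Y262.EG

/-- the coefficient of the geodesic vector field -/
def cX (φ : ℂ → ℝ) (x w : Y) : ℝ :=
  Real.exp (φ x.1) * (Real.cos x.2 * w.1.re + Real.sin x.2 * w.1.im)

/-- the coefficient of the horizontal vector field -/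
def cH (φ : ℂ → ℝ) (x w : Y) : ℝ :=
  Real.exp (φ x.1) * (-(Real.sin x.2) * w.1.re + Real.cos x.2 * w.1.im)

/-- the coefficient of the vertical vector field -/
def cV (φ : ℂ → ℝ) (x w : Y) : ℝ := w.2 - cX φ x w * (XX φ x).2 - cH φ x w * (HH φ x).2

lemma expm (a : ℝ) : Real.exp a * Real.exp (-a) = 1 := by
  rw [← Real.exp_add]; simp

lemma decomp (φ : ℂ → ℝ) (x w : Y) :
    w = cX φ x w • XX φ x + cH φ x w • HH φ x + cV φ x w • VV := by
  have h1 := expm (φ x.1)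
  have h2 := Real.sin_sq_add_cos_sq x.2
  refine Prod.ext (Complex.ext ?_ ?_) ?_
  · simp only [cX, cH, XX, HH, VV, Prod.fst_add, Prod.smul_fst, Complex.add_re, Complex.real_smul,
      Complex.mul_re, Complex.ofReal_re, Complex.ofReal_im, smul_zero]
    have : w.1.re = (Real.exp (φ x.1) * Real.exp (-φ x.1)) *
        (Real.sin x.2 ^ 2 + Real.cos x.2 ^ 2) * w.1.re := by rw [h1, h2]; ring
    simp only [Complex.zero_re]
    linear_combination this
  · simp only [cX, cH, XX, HH, VV, Prod.fst_add, Prod.smul_fst, Complex.add_im, Complex.real_smul,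
      Complex.mul_im, Complex.ofReal_re, Complex.ofReal_im, smul_zero]
    have : w.1.im = (Real.exp (φ x.1) * Real.exp (-φ x.1)) *
        (Real.sin x.2 ^ 2 + Real.cos x.2 ^ 2) * w.1.im := by rw [h1, h2]; ring
    simp only [Complex.zero_im]
    linear_combination this
  · simp only [cV, VV, Prod.snd_add, Prod.smul_snd, smul_eq_mul]
    ring

lemma cX_lin (φ : ℂ → ℝ) (x : Y) (a b c : ℝ) :
    cX φ x (a • XX φ x + b • HH φ x + c • VV) = a := by
  have h1 := expm (φ x.1)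
  have h2 := Real.sin_sq_add_cos_sq x.2
  have : a = (Real.exp (φ x.1) * Real.exp (-φ x.1)) *
      (Real.sin x.2 ^ 2 + Real.cos x.2 ^ 2) * a := by rw [h1, h2]; ring
  simp only [cX, XX, HH, VV, Prod.fst_add, Prod.smul_fst, Complex.add_re, Complex.real_smul,
    Complex.mul_re, Complex.ofReal_re, Complex.ofReal_im, smul_zero, Complex.add_im,
    Complex.mul_im, Complex.zero_re, Complex.zero_im]
  linear_combination -this

lemma cH_lin (φ : ℂ → ℝ) (x : Y) (a b c : ℝ) :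
    cH φ x (a • XX φ x + b • HH φ x + c • VV) = b := by
  have h1 := expm (φ x.1)
  have h2 := Real.sin_sq_add_cos_sq x.2
  have : b = (Real.exp (φ x.1) * Real.exp (-φ x.1)) *
      (Real.sin x.2 ^ 2 + Real.cos x.2 ^ 2) * b := by rw [h1, h2]; ring
  simp only [cH, XX, HH, VV, Prod.fst_add, Prod.smul_fst, Complex.add_re, Complex.real_smul,
    Complex.mul_re, Complex.ofReal_re, Complex.ofReal_im, smul_zero, Complex.add_im,
    Complex.mul_im, Complex.zero_re, Complex.zero_im]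
  linear_combination -this

lemma cV_lin (φ : ℂ → ℝ) (x : Y) (a b c : ℝ) :
    cV φ x (a • XX φ x + b • HH φ x + c • VV) = c := by
  rw [cV, cX_lin, cH_lin]
  simp only [VV, Prod.snd_add, Prod.smul_snd, smul_eq_mul]
  ring

lemma frame_uniq (φ : ℂ → ℝ) (x : Y) (a b c a' b' c' : ℝ)
    (h : a • XX φ x + b • HH φ x + c • VV = a' • XX φ x + b' • HH φ x + c' • VV) :
    a = a' ∧ b = b' ∧ c = c' := by
  refine ⟨?_, ?_, ?_⟩
  · rw [← cX_lin φ x a b c, h, cX_lin]
  · rw [← cH_lin φ x a b c, h, cH_lin]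
  · rw [← cV_lin φ x a b c, h, cV_lin]

lemma isOpen_YO {Ω : Set ℂ} (h : IsOpen Ω) : IsOpen (YO Ω) := h.preimage continuous_fst

section smooth

variable {Ω : Set ℂ} {φ : ℂ → ℝ} {A : Type*} [NormedAddCommGroup A] [NormedSpace ℝ A] {D : Set A}
  {x w : A → Y}

lemma smooth_cX (hφ : ContDiffOn ℝ ∞ φ Ω) (hx : ContDiffOn ℝ ∞ x D) (hw : ContDiffOn ℝ ∞ w D)
    (hD : ∀ a ∈ D, x a ∈ YO Ω) : ContDiffOn ℝ ∞ (fun a => cX φ (x a) (w a)) D := by
  have h1 : ContDiffOn ℝ ∞ (fun a => φ (x a).1) D :=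
    hφ.comp (contDiff_fst.comp_contDiffOn hx) hD
  have h2 : ContDiffOn ℝ ∞ (fun a => (x a).2) D := contDiff_snd.comp_contDiffOn hx
  have h3 : ContDiffOn ℝ ∞ (fun a => (w a).1.re) D :=
    (Complex.reCLM.contDiff.comp contDiff_fst).comp_contDiffOn hw
  have h4 : ContDiffOn ℝ ∞ (fun a => (w a).1.im) D :=
    (Complex.imCLM.contDiff.comp contDiff_fst).comp_contDiffOn hw
  exact h1.exp.mul ((h2.cos.mul h3).add (h2.sin.mul h4))

lemma smooth_cH (hφ : ContDiffOn ℝ ∞ φ Ω) (hx : ContDiffOn ℝ ∞ x D) (hw : ContDiffOn ℝ ∞ w D)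
    (hD : ∀ a ∈ D, x a ∈ YO Ω) : ContDiffOn ℝ ∞ (fun a => cH φ (x a) (w a)) D := by
  have h1 : ContDiffOn ℝ ∞ (fun a => φ (x a).1) D :=
    hφ.comp (contDiff_fst.comp_contDiffOn hx) hD
  have h2 : ContDiffOn ℝ ∞ (fun a => (x a).2) D := contDiff_snd.comp_contDiffOn hx
  have h3 : ContDiffOn ℝ ∞ (fun a => (w a).1.re) D :=
    (Complex.reCLM.contDiff.comp contDiff_fst).comp_contDiffOn hw
  have h4 : ContDiffOn ℝ ∞ (fun a => (w a).1.im) D :=
    (Complex.imCLM.contDiff.comp contDiff_fst).comp_contDiffOn hw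
  exact h1.exp.mul ((h2.sin.neg.mul h3).add (h2.cos.mul h4))

lemma smooth_cV (hφ : ContDiffOn ℝ ∞ φ Ω) (hX : ContDiffOn ℝ ∞ (XX φ) (YO Ω))
    (hH : ContDiffOn ℝ ∞ (HH φ) (YO Ω)) (hx : ContDiffOn ℝ ∞ x D) (hw : ContDiffOn ℝ ∞ w D)
    (hD : ∀ a ∈ D, x a ∈ YO Ω) : ContDiffOn ℝ ∞ (fun a => cV φ (x a) (w a)) D := by
  have h1 : ContDiffOn ℝ ∞ (fun a => (w a).2) D := contDiff_snd.comp_contDiffOn hw
  have h2 : ContDiffOn ℝ ∞ (fun a => (XX φ (x a)).2) D :=
    contDiff_snd.comp_contDiffOn (hX.comp hx hD)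
  have h3 : ContDiffOn ℝ ∞ (fun a => (HH φ (x a)).2) D :=
    contDiff_snd.comp_contDiffOn (hH.comp hx hD)
  exact (h1.sub ((smooth_cX hφ hx hw hD).mul h2)).sub ((smooth_cH hφ hx hw hD).mul h3)

end smooth

section flow

variable {Ω : Set ℂ} {φ : ℂ → ℝ} {Fl : ℝ → Y → Y}

/-- the variational equation -/
lemma var_eq (hO : IsOpen Ω) (hX : ContDiffOn ℝ ∞ (XX φ) (YO Ω)) (hF : IsGeo Ω φ Fl) (t : ℝ)
    {p : Y} (hp : p ∈ YO Ω) (w : Y) :
    HasDerivAt (fun τ => fderiv ℝ (Fl τ) p w)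
      (fderiv ℝ (XX φ) (Fl t p) (fderiv ℝ (Fl t) p w)) t := by
  have hY := isOpen_YO hO
  have h1 := mixed (G := Fl) (G' := fun t p => XX φ (Fl t p)) hY hF.smooth hF.ode t hp w
  have h2 : DifferentiableAt ℝ (XX φ) (Fl t p) :=
    (hX.contDiffAt (hY.mem_nhds (hF.maps t p hp))).differentiableAt (by simp)
  have h3 : fderiv ℝ (fun p => XX φ (Fl t p)) p =
      (fderiv ℝ (XX φ) (Fl t p)).comp (fderiv ℝ (Fl t) p) :=
    fderiv_comp p h2 (par_diff hY hF.smooth t hp)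
  rw [h3] at h1
  exact h1

/-- the equations of the coefficients -/
lemma coef_ode (hFr : StFrame) (hO : IsOpen Ω) (hφ : ContDiffOn ℝ ∞ φ Ω) (hF : IsGeo Ω φ Fl)
    {p : Y} (hp : p ∈ YO Ω) (w : Y) (t : ℝ) :
    HasDerivAt (fun t => cX φ (Fl t p) (fderiv ℝ (Fl t) p w)) 0 t ∧
    HasDerivAt (fun t => cH φ (Fl t p) (fderiv ℝ (Fl t) p w))
      (cV φ (Fl t p) (fderiv ℝ (Fl t) p w)) t ∧
    HasDerivAt (fun t => cV φ (Fl t p) (fderiv ℝ (Fl t) p w))
      (-curv φ (Fl t p).1 * cH φ (Fl t p) (fderiv ℝ (Fl t) p w)) t := by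
  obtain ⟨hX, hH, -, hfr⟩ := hFr Ω φ hO hφ
  have hY := isOpen_YO hO
  have hw : ContDiffOn ℝ ∞ (fun t : ℝ => fderiv ℝ (Fl t) p w) univ := by
    have h1 := par_smooth (G := Fl) (w := fun _ => w) hY hF.smooth contDiffOn_const
    have h2 : ContDiffOn ℝ ∞ (fun t : ℝ => ((t, p) : ℝ × Y)) univ :=
      (contDiff_id.prodMk contDiff_const).contDiffOn
    exact h1.comp h2 (fun t _ => hp)
  have hx : ContDiffOn ℝ ∞ (fun t : ℝ => Fl t p) univ := by
    have h2 : ContDiffOn ℝ ∞ (fun t : ℝ => ((t, p) : ℝ × Y)) univ :=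
      (contDiff_id.prodMk contDiff_const).contDiffOn
    exact hF.smooth.comp h2 (fun t _ => hp)
  have hD : ∀ t ∈ (univ : Set ℝ), Fl t p ∈ YO Ω := fun t _ => hF.maps t p hp
  have ha := ((smooth_cX hφ hx hw hD).contDiffAt univ_mem).differentiableAt (x := t) (by simp)
  have hb := ((smooth_cH hφ hx hw hD).contDiffAt univ_mem).differentiableAt (x := t) (by simp)
  have hv := ((smooth_cV hφ hX hH hx hw hD).contDiffAt univ_mem).differentiableAt (x := t)
    (by simp)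
  set α : ℝ → ℝ := fun t => cX φ (Fl t p) (fderiv ℝ (Fl t) p w) with hα
  set β : ℝ → ℝ := fun t => cH φ (Fl t p) (fderiv ℝ (Fl t) p w) with hβ
  set γ : ℝ → ℝ := fun t => cV φ (Fl t p) (fderiv ℝ (Fl t) p w) with hγ
  have hmem := hF.maps t p hp
  have dX : DifferentiableAt ℝ (XX φ) (Fl t p) :=
    (hX.contDiffAt (hY.mem_nhds hmem)).differentiableAt (by simp)
  have dH : DifferentiableAt ℝ (HH φ) (Fl t p) :=
    (hH.contDiffAt (hY.mem_nhds hmem)).differentiableAt (by simp)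
  have h1 : HasDerivAt (fun t => XX φ (Fl t p)) (fderiv ℝ (XX φ) (Fl t p) (XX φ (Fl t p))) t :=
    HasFDerivAt.comp_hasDerivAt (l := XX φ) (f := fun τ => Fl τ p) t dX.hasFDerivAt
      (hF.ode t p hp)
  have h2 : HasDerivAt (fun t => HH φ (Fl t p)) (fderiv ℝ (HH φ) (Fl t p) (XX φ (Fl t p))) t :=
    HasFDerivAt.comp_hasDerivAt (l := HH φ) (f := fun τ => Fl τ p) t dH.hasFDerivAt
      (hF.ode t p hp)
  have h3 : HasDerivAt (fun t => α t • XX φ (Fl t p) + β t • HH φ (Fl t p) + γ t • VV)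
      ((α t • fderiv ℝ (XX φ) (Fl t p) (XX φ (Fl t p)) + deriv α t • XX φ (Fl t p)) +
        (β t • fderiv ℝ (HH φ) (Fl t p) (XX φ (Fl t p)) + deriv β t • HH φ (Fl t p)) +
        deriv γ t • VV) t :=
    ((ha.hasDerivAt.smul h1).add (hb.hasDerivAt.smul h2)).add (hv.hasDerivAt.smul_const VV)
  have h4 : (fun τ => fderiv ℝ (Fl τ) p w) =
      fun t => α t • XX φ (Fl t p) + β t • HH φ (Fl t p) + γ t • VV := by
    funext τ
    exact decomp φ (Fl τ p) (fderiv ℝ (Fl τ) p w)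
  have h5 := var_eq hO hX hF t hp w
  rw [h4] at h5
  have h6 := h5.unique h3
  have h7 : fderiv ℝ (XX φ) (Fl t p) (fderiv ℝ (Fl t) p w) =
      α t • fderiv ℝ (XX φ) (Fl t p) (XX φ (Fl t p)) +
      β t • fderiv ℝ (XX φ) (Fl t p) (HH φ (Fl t p)) + γ t • HH φ (Fl t p) := by
    conv_lhs => rw [decomp φ (Fl t p) (fderiv ℝ (Fl t) p w)]
    rw [map_add, map_add, map_smul, map_smul, map_smul, (hfr (Fl t p) hmem).1]
  have hcom := (hfr (Fl t p) hmem).2.2
  rw [h7] at h6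
  have h8 : deriv α t • XX φ (Fl t p) + deriv β t • HH φ (Fl t p) + deriv γ t • VV =
      (0 : ℝ) • XX φ (Fl t p) + γ t • HH φ (Fl t p) +
        (-curv φ (Fl t p).1 * β t) • VV := by
    have h9 : β t • fderiv ℝ (HH φ) (Fl t p) (XX φ (Fl t p)) =
        β t • fderiv ℝ (XX φ) (Fl t p) (HH φ (Fl t p)) + (β t * curv φ (Fl t p).1) • VV := by
      rw [mul_smul, ← hcom, ← smul_add]
      congr 1
      abel
    rw [h9] at h6
    have h10 : (-curv φ (Fl t p).1 * β t) • VV = -((β t * curv φ (Fl t p).1) • VV) := by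
      rw [← neg_smul]; congr 1; ring
    rw [h10, zero_smul, zero_add]
    have := sub_eq_zero.mpr h6
    rw [← sub_eq_zero]
    rw [← neg_eq_zero]
    rw [← this]
    abel
  obtain ⟨e1, e2, e3⟩ := frame_uniq φ (Fl t p) _ _ _ _ _ _ h8
  have k1 := ha.hasDerivAt
  have k2 := hb.hasDerivAt
  have k3 := hv.hasDerivAt
  rw [e1] at k1
  rw [e2] at k2
  rw [e3] at k3
  exact ⟨k1, k2, k3⟩

lemma fl_zero (hO : IsOpen Ω) (hF : IsGeo Ω φ Fl) {p : Y} (hp : p ∈ YO Ω) (w : Y) :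
    fderiv ℝ (Fl 0) p w = w := by
  have : Fl 0 =ᶠ[𝓝 p] id := by
    filter_upwards [(isOpen_YO hO).mem_nhds hp] with q hq using hF.zero q hq
  rw [this.fderiv_eq, fderiv_id]
  rfl

theorem coc : StFrame → StUniq → StCoc := by
  intro hFr hUn Ω φ Fl hO hφ hF
  obtain ⟨hX, hH, hcv, hfr⟩ := hFr Ω φ hO hφ
  have hY := isOpen_YO hO
  have smV := par_smooth (G := Fl) (w := fun _ => VV) hY hF.smooth contDiffOn_const
  have smH := par_smooth (G := Fl) (w := HH φ) hY hF.smooth hH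
  have hmaps : ∀ a ∈ {a : ℝ × Y | a.2 ∈ YO Ω}, Fl a.1 a.2 ∈ YO Ω :=
    fun a ha => hF.maps a.1 a.2 ha
  have hXz : ∀ w : Y, ∀ p ∈ YO Ω, cX φ p w = 0 → ∀ t, cX φ (Fl t p) (fderiv ℝ (Fl t) p w) = 0 := by
    intro w p hp h0 t
    have hd : ∀ t, HasDerivAt (fun t => cX φ (Fl t p) (fderiv ℝ (Fl t) p w)) 0 t :=
      fun t => (coef_ode hFr hO hφ hF hp w t).1
    have := is_const_of_deriv_eq_zero (fun t => (hd t).differentiableAt)
      (fun t => (hd t).deriv) t 0
    rw [this, hF.zero p hp, fl_zero hO hF hp, h0]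
  have hXV : ∀ p : Y, cX φ p VV = 0 := by
    intro p
    have := cX_lin φ p 0 0 1
    simpa using this
  have hXH : ∀ p : Y, cX φ p (HH φ p) = 0 := by
    intro p
    have := cX_lin φ p 0 1 0
    simpa using this
  refine ⟨fun t p => cH φ (Fl t p) (fderiv ℝ (Fl t) p (HH φ p)),
    fun t p => cV φ (Fl t p) (fderiv ℝ (Fl t) p (HH φ p)),
    fun t p => cH φ (Fl t p) (fderiv ℝ (Fl t) p VV),
    fun t p => cV φ (Fl t p) (fderiv ℝ (Fl t) p VV), ?_⟩
  refine ⟨smooth_cH hφ hF.smooth smH hmaps, smooth_cV hφ hX hH hF.smooth smH hmaps,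
    smooth_cH hφ hF.smooth smV hmaps, smooth_cV hφ hX hH hF.smooth smV hmaps, ?_, ?_, ?_, ?_⟩
  · intro p hp
    refine ⟨?_, ?_, ?_, ?_, ?_, ?_, ?_, ?_, ?_⟩
    · have h1 : ContinuousOn (fun t => -curv φ (Fl t p).1) univ := by
        refine (hcv.continuousOn.comp (f := fun t => (Fl t p).1) ?_ ?_).neg
        · intro t _
          have := (hF.ode t p hp).continuousAt
          exact (continuous_fst.continuousAt.comp this).continuousWithinAt
        · intro t _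
          exact hF.maps t p hp
      exact continuousOn_univ.mp h1
    · show cH φ (Fl 0 p) (fderiv ℝ (Fl 0) p (HH φ p)) = 1
      rw [hF.zero p hp, fl_zero hO hF hp]
      have := cH_lin φ p 0 1 0
      simpa using this
    · show cV φ (Fl 0 p) (fderiv ℝ (Fl 0) p (HH φ p)) = 0
      rw [hF.zero p hp, fl_zero hO hF hp]
      have := cV_lin φ p 0 1 0
      simpa using this
    · show cH φ (Fl 0 p) (fderiv ℝ (Fl 0) p VV) = 0
      rw [hF.zero p hp, fl_zero hO hF hp]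
      have := cH_lin φ p 0 0 1
      simpa using this
    · show cV φ (Fl 0 p) (fderiv ℝ (Fl 0) p VV) = 1
      rw [hF.zero p hp, fl_zero hO hF hp]
      have := cV_lin φ p 0 0 1
      simpa using this
    · exact fun t => (coef_ode hFr hO hφ hF hp _ t).2.1
    · exact fun t => (coef_ode hFr hO hφ hF hp _ t).2.2
    · exact fun t => (coef_ode hFr hO hφ hF hp _ t).2.1
    · exact fun t => (coef_ode hFr hO hφ hF hp _ t).2.2
  · intro t p hp
    have h1 := decomp φ (Fl t p) (fderiv ℝ (Fl t) p VV)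
    rw [hXz VV p hp (hXV p) t, zero_smul, zero_add] at h1
    exact h1
  · intro t p hp
    have h1 := decomp φ (Fl t p) (fderiv ℝ (Fl t) p (HH φ p))
    rw [hXz (HH φ p) p hp (hXH p) t, zero_smul, zero_add] at h1
    exact h1
  · intro t p hp
    have hgr := (hUn Ω φ hO hφ).2 Fl hF
    have h0 : Fl 0 p = p := hF.zero p hp
    have h1 : HasDerivAt (fun τ => Fl t (Fl τ p)) (fderiv ℝ (Fl t) p (XX φ p)) 0 := by
      have h2 : HasDerivAt (fun τ => Fl τ p) (XX φ p) 0 := by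
        have := hF.ode 0 p hp
        rwa [h0] at this
      have h3 : HasFDerivAt (Fl t) (fderiv ℝ (Fl t) p) (Fl 0 p) := by
        rw [h0]
        exact (par_diff hY hF.smooth t hp).hasFDerivAt
      exact h3.comp_hasDerivAt 0 h2
    have h4 : HasDerivAt (fun τ => Fl t (Fl τ p)) (XX φ (Fl t p)) 0 := by
      have h5 : (fun τ => Fl t (Fl τ p)) = fun τ => Fl (t + τ) p := by
        funext τ
        exact (hgr t τ p hp).symm
      rw [h5]
      have h6 : HasDerivAt (fun τ => Fl τ p) (XX φ (Fl t p)) (t + 0) := by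
        rw [add_zero]; exact hF.ode t p hp
      exact h6.comp_const_add t 0
    exact h1.unique h4

end flow

end Pool.Agent.Y338.EG
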