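import Pool.Agent.Y338.EG.Coc

/-!
# The variation formula for the slopes
-/

set_option autoImplicit false

open Set Filter Topology MeasureTheory
open scoped ContDiff

noncomputable section

namespace Pool.Agent.Y338.EG

open Pool.Agent.Y262.EG

variable {Ω : Set ℂ} {φ : ℂ → ℝ} {Fl : ℝ → Y → Y} {c c1 s s1 : ℝ → Y → ℝ} {T : ℝ}

lemma s_ne (hJ : StJac1) (hneg : ∀ z ∈ Ω, curv φ z ≤ 0) (hF : IsGeo Ω φ Fl)
    (hC : Coc Ω φ Fl c c1 s s1) (hT : T ≠ 0) {p : Y} (hp : p ∈ YO Ω) : s T p ≠ 0 := by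
  obtain ⟨-, h1, h2, -⟩ := hJ _ _ _ _ _ (hC.jac p hp)
    (fun t => neg_nonneg.mpr (hneg _ (hF.maps t p hp)))
  rcases lt_or_gt_of_ne hT with h | h
  · have := h2 T h
    exact ne_of_lt (lt_of_le_of_lt this h)
  · have := h1 T h
    exact ne_of_gt (lt_of_lt_of_le h this)

lemma sm_at {G : ℝ → Y → ℝ} (hG : ContDiffOn ℝ ∞ (fun a : ℝ × Y => G a.1 a.2) {a | a.2 ∈ YO Ω})
    (t : ℝ) : ContDiffOn ℝ ∞ (G t) (YO Ω) := by
  have h2 : ContDiffOn ℝ ∞ (fun q : Y => ((t, q) : ℝ × Y)) (YO Ω) :=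
    (contDiff_const.prodMk contDiff_id).contDiffOn
  exact hG.comp h2 (fun q hq => hq)

lemma uu_smooth (hJ : StJac1) (hneg : ∀ z ∈ Ω, curv φ z ≤ 0) (hF : IsGeo Ω φ Fl)
    (hC : Coc Ω φ Fl c c1 s s1) (hT : T ≠ 0) : ContDiffOn ℝ ∞ (uu c s T) (YO Ω) :=
  ((sm_at hC.smc T).div (sm_at hC.sms T) (fun _ hp => s_ne hJ hneg hF hC hT hp)).neg

lemma var_main (hJ : StJac1) (hFr : StFrame) (hO : IsOpen Ω) (hφ : ContDiffOn ℝ ∞ φ Ω)
    (hF : IsGeo Ω φ Fl) (hneg : ∀ z ∈ Ω, curv φ z ≤ 0) (hC : Coc Ω φ Fl c c1 s s1)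
    (hT : T ≠ 0) {p : Y} (hp : p ∈ YO Ω) (w : Y) (r : ℝ → ℝ)
    (hr : ∀ t, (fderiv ℝ (Fl t) p w).1 = r t • (HH φ (Fl t p)).1) :
    fderiv ℝ (uu c s T) p w = ∫ t in (0 : ℝ)..T, (yy c s T t p) ^ 2 * r t *
        fderiv ℝ (curv φ) (Fl t p).1 (HH φ (Fl t p)).1 := by
  obtain ⟨hX, hH, hcv, hfr⟩ := hFr Ω φ hO hφ
  have hY := isOpen_YO hO
  have hu := uu_smooth hJ hneg hF hC hT
  set u : Y → ℝ := uu c s T with hudef
  set D : Set (ℝ × Y) := {a | a.2 ∈ YO Ω} with hD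
  have huD : ContDiffOn ℝ ∞ (fun a : ℝ × Y => u a.2) D :=
    hu.comp contDiff_snd.contDiffOn (fun a ha => ha)
  -- the functions of the time and the point
  set y : ℝ → Y → ℝ := fun t q => c t q + u q * s t q with hy
  set y1 : ℝ → Y → ℝ := fun t q => c1 t q + u q * s1 t q with hy1
  set k : ℝ → Y → ℝ := fun t q => -curv φ (Fl t q).1 with hk
  have smy : ContDiffOn ℝ ∞ (fun a : ℝ × Y => y a.1 a.2) D := hC.smc.add (huD.mul hC.sms)
  have smy1 : ContDiffOn ℝ ∞ (fun a : ℝ × Y => y1 a.1 a.2) D := hC.smc1.add (huD.mul hC.sms1)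
  have smk : ContDiffOn ℝ ∞ (fun a : ℝ × Y => k a.1 a.2) D := by
    have h1 : ContDiffOn ℝ ∞ (fun a : ℝ × Y => (Fl a.1 a.2).1) D :=
      contDiff_fst.comp_contDiffOn hF.smooth
    exact (hcv.comp h1 (fun a ha => hF.maps a.1 a.2 ha)).neg
  have dy : ∀ t, ∀ q ∈ YO Ω, HasDerivAt (fun τ => y τ q) (y1 t q) t := by
    intro t q hq
    exact ((hC.jac q hq).dc t).add (((hC.jac q hq).ds t).const_mul (u q))
  have dy1 : ∀ t, ∀ q ∈ YO Ω, HasDerivAt (fun τ => y1 τ q) (k t q * y t q) t := by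
    intro t q hq
    have h := ((hC.jac q hq).dc1 t).add (((hC.jac q hq).ds1 t).const_mul (u q))
    have e : k t q * y t q = -curv φ (Fl t q).1 * c t q + u q * (-curv φ (Fl t q).1 * s t q) := by
      simp only [hk, hy]; ring
    rw [e]
    exact h
  -- the derivatives in the point
  have dz : ∀ t, HasDerivAt (fun τ => fderiv ℝ (y τ) p w) (fderiv ℝ (y1 t) p w) t :=
    fun t => mixed (G := y) (G' := y1) hY smy dy t hp w
  have dz1 : ∀ t, HasDerivAt (fun τ => fderiv ℝ (y1 τ) p w)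
      (k t p * fderiv ℝ (y t) p w + y t p * fderiv ℝ (k t) p w) t := by
    intro t
    have h1 := mixed (G := y1) (G' := fun t q => k t q * y t q) hY smy1 dy1 t hp w
    have h2 : fderiv ℝ (fun q => k t q * y t q) p w =
        k t p * fderiv ℝ (y t) p w + y t p * fderiv ℝ (k t) p w := by
      have h3 := fderiv_fun_mul (par_diff (G := k) hY smk t hp) (par_diff (G := y) hY smy t hp)
      rw [h3]
      simp
    rw [h2] at h1
    exact h1
  have hev : ∀ q : Y, q ∈ YO Ω → ∀ᶠ q' in 𝓝 q, q' ∈ YO Ω := fun q hq => hY.mem_nhds hq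
  have z0 : fderiv ℝ (y 0) p w = 0 := by
    have h1 : y 0 =ᶠ[𝓝 p] fun _ => (1 : ℝ) := by
      filter_upwards [hev p hp] with q hq
      simp only [hy]
      rw [(hC.jac q hq).c0, (hC.jac q hq).s0]; ring
    rw [h1.fderiv_eq]; simp
  have yT : ∀ q ∈ YO Ω, y T q = 0 := by
    intro q hq
    have h1 := s_ne hJ hneg hF hC hT hq
    simp only [hy, hudef, uu]
    field_simp
    ring
  have zT : fderiv ℝ (y T) p w = 0 := by
    have h1 : y T =ᶠ[𝓝 p] fun _ => (0 : ℝ) := by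
      filter_upwards [hev p hp] with q hq using yT q hq
    rw [h1.fderiv_eq]; simp
  have z10 : fderiv ℝ (y1 0) p w = fderiv ℝ u p w := by
    have h1 : y1 0 =ᶠ[𝓝 p] u := by
      filter_upwards [hev p hp] with q hq
      simp only [hy1]
      rw [(hC.jac q hq).c10, (hC.jac q hq).s10]; ring
    rw [h1.fderiv_eq]
  have y0 : y 0 p = 1 := by
    simp only [hy]
    rw [(hC.jac p hp).c0, (hC.jac p hp).s0]; ring
  -- the Wronskian
  have dE : ∀ t, HasDerivAt (fun t => fderiv ℝ (y1 t) p w * y t p - fderiv ℝ (y t) p w * y1 t p)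
      ((y t p) ^ 2 * fderiv ℝ (k t) p w) t := by
    intro t
    have h := ((dz1 t).mul (dy t p hp)).sub ((dz t).mul (dy1 t p hp))
    refine h.congr_deriv ?_
    ring
  have hcont : Continuous fun t => (y t p) ^ 2 * fderiv ℝ (k t) p w := by
    have h1 : Continuous fun t => y t p :=
      continuous_iff_continuousAt.mpr fun t => (dy t p hp).continuousAt
    have h2 : ContDiffOn ℝ ∞ (fun t : ℝ => fderiv ℝ (k t) p w) univ := by
      have h3 := par_smooth (G := k) (w := fun _ => w) hY smk contDiffOn_const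
      have h4 : ContDiffOn ℝ ∞ (fun t : ℝ => ((t, p) : ℝ × Y)) univ :=
        (contDiff_id.prodMk contDiff_const).contDiffOn
      exact h3.comp h4 (fun t _ => hp)
    exact (h1.pow 2).mul (continuousOn_univ.mp h2.continuousOn)
  have hint := intervalIntegral.integral_eq_sub_of_hasDerivAt (a := 0) (b := T)
    (fun t _ => dE t) (hcont.intervalIntegrable _ _)
  rw [zT, z0, z10, y0, yT p hp] at hint
  have hk2 : ∀ t, fderiv ℝ (k t) p w =
      -(r t * fderiv ℝ (curv φ) (Fl t p).1 (HH φ (Fl t p)).1) := by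
    intro t
    have hm := hF.maps t p hp
    have h1 : DifferentiableAt ℝ (curv φ) (Fl t p).1 :=
      (hcv.contDiffAt (hO.mem_nhds hm)).differentiableAt (by simp)
    have h2 : DifferentiableAt ℝ (Fl t) p := par_diff hY hF.smooth t hp
    have h3 : HasFDerivAt (fun q => (Fl t q).1) ((ContinuousLinearMap.fst ℝ ℂ ℝ).comp
        (fderiv ℝ (Fl t) p)) p := h2.hasFDerivAt.fst
    have h4 : HasFDerivAt (fun q => -curv φ (Fl t q).1) (-((fderiv ℝ (curv φ) (Fl t p).1).comp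
        ((ContinuousLinearMap.fst ℝ ℂ ℝ).comp (fderiv ℝ (Fl t) p)))) p :=
      (HasFDerivAt.comp (g := curv φ) (f := fun q => (Fl t q).1) p h1.hasFDerivAt h3).neg
    have h5 : fderiv ℝ (k t) p = _ := h4.fderiv
    rw [h5]
    have h6 := hr t
    simp only [ContinuousLinearMap.neg_apply, ContinuousLinearMap.comp_apply,
      ContinuousLinearMap.coe_fst']
    rw [h6, map_smul, smul_eq_mul]
  have hint2 : (∫ t in (0 : ℝ)..T, (y t p) ^ 2 * fderiv ℝ (k t) p w) =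
      -∫ t in (0 : ℝ)..T, (yy c s T t p) ^ 2 * r t *
        fderiv ℝ (curv φ) (Fl t p).1 (HH φ (Fl t p)).1 := by
    rw [← intervalIntegral.integral_neg]
    congr 1
    funext t
    rw [hk2 t]
    simp only [hy, hudef, yy]
    ring
  rw [hint2] at hint
  linarith

theorem varUp : StJac1 → StFrame → StVarUp := by
  intro hJ hFr Ω φ Fl hO hφ hF hneg c c1 s s1 hC T hT
  refine ⟨uu_smooth hJ hneg hF hC hT, fun p hp => ⟨?_, ?_⟩⟩
  · refine var_main hJ hFr hO hφ hF hneg hC hT hp VV (fun t => s t p) (fun t => ?_)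
    rw [hC.V t p hp]
    simp [VV]
  · refine var_main hJ hFr hO hφ hF hneg hC hT hp (HH φ p) (fun t => c t p) (fun t => ?_)
    rw [hC.H t p hp]
    simp [VV]

end Pool.Agent.Y338.EG
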