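import Pool.Agent.Y262.EG.Stm

/-!
# Functions of the time and a point: derivatives in the point, and their derivative in the time
-/

set_option autoImplicit false

open Set Filter Topology MeasureTheory
open scoped ContDiff

noncomputable section

namespace Pool.Agent.Y338.EG

section mix

variable {E F : Type*} [NormedAddCommGroup E] [NormedSpace ℝ E] [NormedAddCommGroup F]
  [NormedSpace ℝ F]

omit [NormedSpace ℝ E] in
lemma isOpen_dom {O : Set E} (hO : IsOpen O) : IsOpen {a : ℝ × E | a.2 ∈ O} :=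
  hO.preimage continuous_snd

lemma dom_at {G : ℝ → E → F} {O : Set E} (hO : IsOpen O)
    (hG : ContDiffOn ℝ ∞ (fun a : ℝ × E => G a.1 a.2) {a | a.2 ∈ O}) (t : ℝ) {p : E} (hp : p ∈ O) :
    ContDiffAt ℝ ∞ (fun a : ℝ × E => G a.1 a.2) (t, p) :=
  hG.contDiffAt ((isOpen_dom hO).mem_nhds hp)

lemma par_has {G : ℝ → E → F} {O : Set E} (hO : IsOpen O)
    (hG : ContDiffOn ℝ ∞ (fun a : ℝ × E => G a.1 a.2) {a | a.2 ∈ O}) (t : ℝ) {p : E} (hp : p ∈ O) :
    HasFDerivAt (G t) ((fderiv ℝ (fun a : ℝ × E => G a.1 a.2) (t, p)).comp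
      (ContinuousLinearMap.inr ℝ ℝ E)) p := by
  have h1 : DifferentiableAt ℝ (fun a : ℝ × E => G a.1 a.2) (t, p) :=
    (dom_at hO hG t hp).differentiableAt (by simp)
  have h2 : HasFDerivAt (fun q : E => ((t, q) : ℝ × E)) (ContinuousLinearMap.inr ℝ ℝ E) p :=
    hasFDerivAt_prodMk_right t p
  exact h1.hasFDerivAt.comp p h2

lemma par_diff {G : ℝ → E → F} {O : Set E} (hO : IsOpen O)
    (hG : ContDiffOn ℝ ∞ (fun a : ℝ × E => G a.1 a.2) {a | a.2 ∈ O}) (t : ℝ) {p : E} (hp : p ∈ O) :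
    DifferentiableAt ℝ (G t) p := (par_has hO hG t hp).differentiableAt

lemma par_eq {G : ℝ → E → F} {O : Set E} (hO : IsOpen O)
    (hG : ContDiffOn ℝ ∞ (fun a : ℝ × E => G a.1 a.2) {a | a.2 ∈ O}) (t : ℝ) {p : E} (hp : p ∈ O)
    (w : E) : fderiv ℝ (G t) p w = fderiv ℝ (fun a : ℝ × E => G a.1 a.2) (t, p) (0, w) := by
  rw [(par_has hO hG t hp).fderiv]; simp

lemma par_time {G : ℝ → E → F} {O : Set E} (hO : IsOpen O)
    (hG : ContDiffOn ℝ ∞ (fun a : ℝ × E => G a.1 a.2) {a | a.2 ∈ O}) (t : ℝ) {p : E} (hp : p ∈ O) :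
    HasDerivAt (fun τ => G τ p) (fderiv ℝ (fun a : ℝ × E => G a.1 a.2) (t, p) (1, 0)) t := by
  have h1 : DifferentiableAt ℝ (fun a : ℝ × E => G a.1 a.2) (t, p) :=
    (dom_at hO hG t hp).differentiableAt (by simp)
  have h2 : HasDerivAt (fun τ : ℝ => ((τ, p) : ℝ × E)) (1, 0) t :=
    (hasDerivAt_id t).prodMk (hasDerivAt_const t p)
  exact h1.hasFDerivAt.comp_hasDerivAt t h2

/-- the derivative in the point is smooth -/
lemma par_smooth {G : ℝ → E → F} {O : Set E} (hO : IsOpen O)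
    (hG : ContDiffOn ℝ ∞ (fun a : ℝ × E => G a.1 a.2) {a | a.2 ∈ O}) {w : E → E}
    (hw : ContDiffOn ℝ ∞ w O) :
    ContDiffOn ℝ ∞ (fun a : ℝ × E => fderiv ℝ (G a.1) a.2 (w a.2)) {a | a.2 ∈ O} := by
  have h1 : ContDiffOn ℝ ∞ (fderiv ℝ (fun a : ℝ × E => G a.1 a.2)) {a | a.2 ∈ O} :=
    hG.fderiv_of_isOpen (isOpen_dom hO) (by simp)
  have h2 : ContDiffOn ℝ ∞ (fun a : ℝ × E => w a.2) {a | a.2 ∈ O} :=
    hw.comp contDiff_snd.contDiffOn (fun a ha => ha)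
  have h3 : ContDiffOn ℝ ∞ (fun a : ℝ × E => ((0, w a.2) : ℝ × E)) {a | a.2 ∈ O} :=
    contDiffOn_const.prodMk h2
  refine (h1.clm_apply h3).congr ?_
  rintro ⟨t, p⟩ hp
  exact par_eq hO hG t hp (w p)

/-- the derivative in the time of the derivative in the point -/
lemma mixed {G G' : ℝ → E → F} {O : Set E} (hO : IsOpen O)
    (hG : ContDiffOn ℝ ∞ (fun a : ℝ × E => G a.1 a.2) {a | a.2 ∈ O})
    (hd : ∀ t, ∀ p ∈ O, HasDerivAt (fun τ => G τ p) (G' t p) t) (t : ℝ) {p : E} (hp : p ∈ O)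
    (w : E) : HasDerivAt (fun τ => fderiv ℝ (G τ) p w) (fderiv ℝ (G' t) p w) t := by
  set g : ℝ × E → F := fun a : ℝ × E => G a.1 a.2 with hg
  have hgd : ∀ (t : ℝ) (q : E), q ∈ O → G' t q = fderiv ℝ g (t, q) (1, 0) := by
    intro t q hq
    exact (hd t q hq).unique (par_time hO hG t hq)
  have hC : ContDiffAt ℝ ∞ g (t, p) := dom_at hO hG t hp
  have hDf : DifferentiableAt ℝ (fderiv ℝ g) (t, p) :=
    (hC.fderiv_right (m := 1) (by norm_cast)).differentiableAt (by simp)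
  have hsym : IsSymmSndFDerivAt ℝ g (t, p) := hC.isSymmSndFDerivAt (by
    rw [minSmoothness_of_isRCLikeNormedField]; exact WithTop.coe_le_coe.2 (le_top : (2 : ℕ∞) ≤ ⊤))
  have h2 : HasDerivAt (fun τ : ℝ => ((τ, p) : ℝ × E)) (1, 0) t :=
    (hasDerivAt_id t).prodMk (hasDerivAt_const t p)
  have hA : HasDerivAt (fun τ => fderiv ℝ g (τ, p)) (fderiv ℝ (fderiv ℝ g) (t, p) (1, 0)) t :=
    hDf.hasFDerivAt.comp_hasDerivAt t h2
  have hA2 : HasDerivAt (fun τ => fderiv ℝ g (τ, p) (0, w))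
      (fderiv ℝ (fderiv ℝ g) (t, p) (1, 0) (0, w)) t := by
    have := hA.clm_apply (hasDerivAt_const t ((0, w) : ℝ × E))
    simpa using this
  have h3 : HasFDerivAt (fun q : E => ((t, q) : ℝ × E)) (ContinuousLinearMap.inr ℝ ℝ E) p :=
    hasFDerivAt_prodMk_right t p
  have hB : HasFDerivAt (fun q : E => fderiv ℝ g (t, q))
      ((fderiv ℝ (fderiv ℝ g) (t, p)).comp (ContinuousLinearMap.inr ℝ ℝ E)) p :=
    hDf.hasFDerivAt.comp p h3
  have hB2 := hB.clm_apply (hasFDerivAt_const ((1, 0) : ℝ × E) p)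
  have hev : G' t =ᶠ[𝓝 p] fun q => fderiv ℝ g (t, q) (1, 0) := by
    filter_upwards [hO.mem_nhds hp] with q hq using hgd t q hq
  have h4 : fderiv ℝ (G' t) p w = fderiv ℝ (fderiv ℝ g) (t, p) (0, w) (1, 0) := by
    rw [hev.fderiv_eq, hB2.fderiv]
    simp
  have h5 : (fun τ => fderiv ℝ (G τ) p w) = fun τ => fderiv ℝ g (τ, p) (0, w) := by
    funext τ
    exact par_eq hO hG τ hp w
  rw [h5, h4, hsym.eq (0, w) (1, 0)]
  exact hA2

end mix

end Pool.Agent.Y338.EG
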